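import Pool.Agent.X39.Near.Ax
import Pool.Agent.X39.Near.DepInt

/-!
# The numbers `e ^ (a_i t)`, `℘ (p_j t)`, `ζ (p_j t)` for ALL algebraic `t` close to any number outside a set of dimension zero

Let `L` be a lattice. The question is whether the numbers `e ^ (t_i)`, `℘ (p_j)`, `ζ (p_j)` are algebraically independent if
`g₂`, `g₃`, `t_i`, `p_j` are algebraic, the `t_i` linearly independent over `ℚ` and the `p_j` linearly independent over `k`,
that is, over the ring of the `c` with `c L ⊆ L`. We consider `t_i = a_i t`, `p_j = b_j t`, for fixed algebraic directions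
`a_i`, `b_j` and a variable algebraic number `t`. We prove, outside ONE set `E` of complex numbers of Hausdorff dimension `0`
(for all algebraic `a_i`, `b_j`, number fields, degrees and scales): for every complex `x`, the `s + 2 n` numbers `e ^ (a_i t)`, `℘ (b_j t)`, `ζ (b_j t)`, at ALL algebraic points `t` of a number field
close to `x`, satisfy no relation of bounded degree with coefficients of polynomial size, even approximately; the
coefficients may be polynomials in arbitrary constants `ξ_1, …, ξ_g` fixed in advance (for instance the invariants, periods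
and quasi-periods of `L`). In particular nonzero integral polynomials of degree at most `d` and of height at most `T ^ A`
have values of absolute value greater than `T ^ (-B)` at these numbers.

Proof: these functions of `t` are algebraically independent over `ℂ(t)` (Ax); the levels of the library give, on compact
sets, at most `C T ^ ε` exceptional points of height `T`, for every `ε > 0`, and so a limsup set of dimension `0`
(`Pool.Agent.X39.Near`); the countably many systems `a`, `b` are treated at the same time.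
-/

set_option autoImplicit false

open MvPolynomial NumberField
open scoped PeriodPair

namespace Pool.Agent.Results.MP_06aafe_nt.ApproximationsOfAllNumbers

open Pool.Agent.X39.Near (Size Dep)

/-- the Weierstrass zeta function of the lattice `L` (the term of `l = 0` is `1 / z`) -/
noncomputable def zeta (L : PeriodPair) (z : ℂ) : ℂ := ∑' l : L.lattice, (1 / (z - l) + 1 / l + z / l ^ 2)

/-- the numbers `e ^ (a_i t)`, `℘ (b_j t)`, `ζ (b_j t)` -/
noncomputable def value {s n : ℕ} (L : PeriodPair) (a : Fin s → ℂ) (b : Fin n → ℂ) (t : ℂ) :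
    Fin s ⊕ (Fin n ⊕ Fin n) → ℂ
  | Sum.inl i => Complex.exp (a i * t)
  | Sum.inr (Sum.inl j) => ℘[L] (b j * t)
  | Sum.inr (Sum.inr j) => zeta L (b j * t)

/-- The `a_i` are algebraic and linearly independent over `ℚ`; the `b_j` are algebraic and linearly independent over the
ring of the complex numbers `c` with `c L ⊆ L`. -/
structure Directions {s n : ℕ} (L : PeriodPair) (a : Fin s → ℂ) (b : Fin n → ℂ) : Prop where
  pos : 0 < s + n
  alg_a : ∀ i, IsAlgebraic ℚ (a i)
  alg_b : ∀ j, IsAlgebraic ℚ (b j)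
  ind_a : ∀ m : Fin s → ℤ, ∑ i, (m i : ℂ) * a i = 0 → m = 0
  ind_b : ∀ c : Fin n → ℂ, (∀ j, ∀ l ∈ L.lattice, c j * l ∈ L.lattice) → ∑ j, c j * b j = 0 → c = 0

/-- There is no relation between the numbers `v`: (1) in the sense of `Dep`, (2) for integral polynomials. -/
def NoRelation {J : Type} {g : ℕ} (v : J → ℂ) (ξ : Fin g → ℂ) (F : Type) [Field F] [NumberField F] (ι : F →+* ℂ)
    (d A : ℕ) (B T : ℝ) : Prop :=
  ¬ Dep v ξ F ι d A B T ∧
  ∀ P : MvPolynomial J ℤ, P ≠ 0 → (∀ j, P.degreeOf j ≤ d) →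
    (∀ e, |((P.coeff e : ℤ) : ℝ)| ≤ T ^ A) → T ^ (-B) < ‖aeval v P‖

theorem b_ne {s n : ℕ} {L : PeriodPair} {a : Fin s → ℂ} {b : Fin n → ℂ} (h : Directions L a b) (j : Fin n) : b j ≠ 0 := by
  classical
  intro h0
  have h1 := h.ind_b (Pi.single j 1) (fun i l hl => by
    by_cases hij : i = j
    · rw [hij, Pi.single_eq_same, one_mul]
      exact hl
    · rw [Pi.single_eq_of_ne hij, zero_mul]
      exact zero_mem _) (by
    rw [Finset.sum_eq_single j]
    · rw [h0, mul_zero]
    · intro i _ hij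
      rw [Pi.single_eq_of_ne hij, zero_mul]
    · intro hcon
      exact absurd (Finset.mem_univ j) hcon)
  have h2 := congrFun h1 j
  rw [Pi.single_eq_same] at h2
  exact one_ne_zero h2

/-- the domain -/
def domain {n : ℕ} (L : PeriodPair) (b : Fin n → ℂ) : Set ℂ := {z | ∀ j, b j * z ∉ L.lattice}

theorem countable_compl {n : ℕ} {L : PeriodPair} {b : Fin n → ℂ} (hb : ∀ j, b j ≠ 0) : (domain L b)ᶜ.Countable := by
  have hL : (L.lattice : Set ℂ).Countable := by
    have h0 : Countable L.lattice := L.latticeEquivProd.toEquiv.countable_iff.2 inferInstance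
    exact h0.to_set
  have h1 : (domain L b)ᶜ ⊆ ⋃ j, (fun l : ℂ => l / b j) '' (L.lattice : Set ℂ) := by
    intro z hz
    rw [domain, Set.mem_compl_iff, Set.mem_ofPred_eq] at hz
    push Not at hz
    obtain ⟨j, hj⟩ := hz
    refine Set.mem_iUnion.2 ⟨j, b j * z, hj, ?_⟩
    exact mul_div_cancel_left₀ z (hb j)
  exact (Set.countable_iUnion fun j => hL.image _).mono h1

theorem domain_open {n : ℕ} (L : PeriodPair) (b : Fin n → ℂ) : IsOpen (domain L b) := by
  have h1 : domain L b = ⋂ j, (fun z => b j * z) ⁻¹' ((L.lattice : Set ℂ)ᶜ) := by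
    ext z
    simp [domain]
  rw [h1]
  exact isOpen_iInter_of_finite fun j => L.isClosed_lattice.isOpen_compl.preimage (continuous_const.mul continuous_id)

theorem domain_conn {n : ℕ} {L : PeriodPair} {b : Fin n → ℂ} (hb : ∀ j, b j ≠ 0) : IsConnected (domain L b) := by
  have h1 := (countable_compl (L := L) hb).isPathConnected_compl_of_one_lt_rank (by
    rw [Complex.rank_real_complex]
    exact Cardinal.one_lt_two)
  rw [compl_compl] at h1
  exact h1.isConnected

theorem fx {s n : ℕ} {L : PeriodPair} {a : Fin s → ℂ} {b : Fin n → ℂ} (h : Directions L a b) :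
    Pool.Agent.Y776.Cv.FxM (domain L b) (fun _ : Fin 1 => L) (fun _ : Fin n => (0 : Fin 1)) (fun j z => b j * z)
      (fun i z => a i * z) where
  isOpen := domain_open L b
  conn := (domain_conn (b_ne h)).isPreconnected
  ni := fun c c' hcc => absurd (Subsingleton.elim c c') hcc
  ua := fun j z _ => analyticAt_const.mul analyticAt_id
  un := fun j z hz => hz j
  ui := by
    intro c w β hw _ hsum
    refine h.ind_b w hw ?_
    -- the linear function is constant on an infinite set
    obtain ⟨z, hz⟩ := (domain_conn (L := L) (b_ne h)).nonempty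
    have hzU := (domain_open L b).mem_nhds hz
    have hev : ∀ᶠ y in nhds z, (∑ j, w j * b j) * y = β := by
      filter_upwards [hzU] with y hy
      rw [← hsum y hy, Finset.sum_mul]
      exact Finset.sum_congr rfl fun j _ => by ring
    have hd : HasDerivAt (fun y : ℂ => (∑ j, w j * b j) * y) (∑ j, w j * b j) z := by
      simpa using (hasDerivAt_id z).const_mul (∑ j, w j * b j)
    have hd0 : HasDerivAt (fun y : ℂ => (∑ j, w j * b j) * y) 0 z :=
      (hasDerivAt_const z β).congr_of_eventuallyEq hev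
    exact hd.unique hd0
  la := fun i z _ => analyticAt_const.mul analyticAt_id
  li := by
    intro m c hsum
    refine h.ind_a m ?_
    obtain ⟨z, hz⟩ := (domain_conn (L := L) (b_ne h)).nonempty
    have hzU := (domain_open L b).mem_nhds hz
    have hev : ∀ᶠ y in nhds z, (∑ i, (m i : ℂ) * a i) * y = c := by
      filter_upwards [hzU] with y hy
      rw [← hsum y hy, Finset.sum_mul]
      exact Finset.sum_congr rfl fun j _ => by ring
    have hd : HasDerivAt (fun y : ℂ => (∑ i, (m i : ℂ) * a i) * y) (∑ i, (m i : ℂ) * a i) z := by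
      simpa using (hasDerivAt_id z).const_mul (∑ i, (m i : ℂ) * a i)
    have hd0 : HasDerivAt (fun y : ℂ => (∑ i, (m i : ℂ) * a i) * y) 0 z :=
      (hasDerivAt_const z c).congr_of_eventuallyEq hev
    exact hd.unique hd0

theorem value_an {s n : ℕ} {L : PeriodPair} {a : Fin s → ℂ} {b : Fin n → ℂ} (h : Directions L a b)
    (k : Fin s ⊕ (Fin n ⊕ Fin n)) : AnalyticOnNhd ℂ (fun z => value L a b z k) (domain L b) := by
  rcases k with i | j | j
  · exact Pool.Agent.Y776.Cv.yf_an (fx h) (Sum.inr (Sum.inl i))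
  · exact Pool.Agent.Y776.Cv.yf_an (fx h) (Sum.inr (Sum.inr (Sum.inr (Sum.inr j))))
  · exact Pool.Agent.Y776.Cv.yf_an (fx h) (Sum.inr (Sum.inr (Sum.inr (Sum.inl j))))

theorem value_ind {s n : ℕ} {L : PeriodPair} {a : Fin s → ℂ} {b : Fin n → ℂ} (h : Directions L a b) :
    ∀ t ∈ domain L b, Pool.Agent.Y124.LocInd (fun k z => value L a b z k) t := by
  refine Pool.Agent.X39.Near.loc_fix (fx h) h.pos (domain_conn (b_ne h)).nonempty (value_an h) (by
    simp only [Fintype.card_sum, Fintype.card_fin]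
    ring) (G := Set.range a ∪ Set.range b) ((Set.countable_range _).union (Set.countable_range _)) ?_
  intro F hF z _ k
  rcases k with i | i | j | j | j
  · exact mul_mem (Pool.Agent.Y685.base_clo (hF (Or.inl ⟨i, rfl⟩))) (Pool.Agent.Y685.subset_clo (Set.mem_insert _ _))
  · exact Pool.Agent.Y685.subset_clo (Or.inr ⟨Sum.inl i, rfl⟩)
  · exact mul_mem (Pool.Agent.Y685.base_clo (hF (Or.inr ⟨j, rfl⟩))) (Pool.Agent.Y685.subset_clo (Set.mem_insert _ _))
  · exact Pool.Agent.Y685.subset_clo (Or.inr ⟨Sum.inr (Sum.inr j), rfl⟩)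
  · exact Pool.Agent.Y685.subset_clo (Or.inr ⟨Sum.inr (Sum.inl j), rfl⟩)

/-- the index set -/
def Ix : Type := Σ s n : ℕ, (Fin s → {z : ℂ // IsAlgebraic ℚ z}) × (Fin n → {z : ℂ // IsAlgebraic ℚ z})

instance : Countable Ix := by
  have : Countable {z : ℂ // IsAlgebraic ℚ z} := (Algebraic.countable ℚ ℂ).to_subtype
  unfold Ix
  infer_instance

/-- **Theorem.** Let `L` be a lattice and `ξ_1, …, ξ_g` complex numbers. There is a set `E` of complex numbers of Hausdorff
dimension `0` such that for all algebraic numbers `a_1, …, a_s`, linearly independent over `ℚ`, and `b_1, …, b_n`, linearly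
independent over the ring of the `c` with `c L ⊆ L` (`s + n ≥ 1`): (1) for all complex `x` outside `E`, all number fields
`F` with an embedding `ι` in `ℂ`, all `d`, `A` and `ω > 0` there are `B`, `T₁` such that for all `T ≥ T₁` and all `t ∈ F`,
quotients of integers with conjugates at most `T`, with `|ι t - x| ≤ T ^ (-ω)`, there is no relation between the numbers
`e ^ (a_i t)`, `℘ (b_j t)`, `ζ (b_j t)`; (2) for all irrational real `x` outside `E` and all
`d`, `A` there is `B` such that this holds over `ℚ` at the convergents `t` of `x`, at the level of the denominator, from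
some point on. -/
theorem result {g : ℕ} (L : PeriodPair) (ξ : Fin g → ℂ) :
    ∃ E : Set ℂ, dimH E = 0 ∧ ∀ (s n : ℕ) (a : Fin s → ℂ) (b : Fin n → ℂ), Directions L a b →
      (∀ x : ℂ, x ∉ E → ∀ (F : Type) [Field F] [NumberField F] (ι : F →+* ℂ) (d A : ℕ) (ω : ℝ), 0 < ω →
        ∃ B T₁ : ℝ, ∀ T : ℝ, T₁ ≤ T → ∀ t : F, Size F T t → ‖ι t - x‖ ≤ T ^ (-ω) →
          NoRelation (value L a b (ι t)) ξ F ι d A B T) ∧
      ∀ x : ℝ, Irrational x → (x : ℂ) ∉ E → ∀ d A : ℕ, ∃ (B : ℝ) (n₀ : ℕ), ∀ k : ℕ, n₀ ≤ k →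
        NoRelation (value L a b ((x.convergent k : ℚ) : ℂ)) ξ ℚ (algebraMap ℚ ℂ) d A B (x.convergent k).den := by
  classical
  have H : ∀ i : Ix, ∃ E : Set ℂ, dimH E = 0 ∧
      (Directions L (fun j => (i.2.2.1 j : ℂ)) (fun j => (i.2.2.2 j : ℂ)) →
      (∀ x : ℂ, x ∉ E → ∀ (F : Type) [Field F] [NumberField F] (ι : F →+* ℂ) (d A : ℕ) (ω : ℝ), 0 < ω →
        ∃ B T₁ : ℝ, ∀ T : ℝ, T₁ ≤ T → ∀ t : F, Size F T t → ‖ι t - x‖ ≤ T ^ (-ω) →
          ¬ Dep (value L (fun j => (i.2.2.1 j : ℂ)) (fun j => (i.2.2.2 j : ℂ)) (ι t)) ξ F ι d A B T) ∧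
      ∀ x : ℝ, Irrational x → (x : ℂ) ∉ E → ∀ d A : ℕ, ∃ (B : ℝ) (n₀ : ℕ), ∀ k : ℕ, n₀ ≤ k →
        ¬ Dep (value L (fun j => (i.2.2.1 j : ℂ)) (fun j => (i.2.2.2 j : ℂ)) ((x.convergent k : ℚ) : ℂ)) ξ ℚ
          (algebraMap ℚ ℂ) d A B (x.convergent k).den) := by
    intro i
    by_cases hi : Directions L (fun j => (i.2.2.1 j : ℂ)) (fun j => (i.2.2.2 j : ℂ))
    · obtain ⟨E, h1, h2, h3⟩ := Pool.Agent.X39.Near.near_dep _ (domain_open L (fun j => (i.2.2.2 j : ℂ)))
        (fun k z => value L (fun j => (i.2.2.1 j : ℂ)) (fun j => (i.2.2.2 j : ℂ)) z k)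
        (fun k t ht => value_an hi k t ht) (value_ind hi) ξ
      refine ⟨E ∪ (domain L (fun j => (i.2.2.2 j : ℂ)))ᶜ, ?_, fun _ => ⟨fun x hx => ?_, fun x hx hxE => ?_⟩⟩
      · rw [dimH_union, h1, (countable_compl (b_ne hi)).dimH_zero, max_self]
      · exact h2 x (not_not.1 fun h => hx (Or.inr h)) (fun h => hx (Or.inl h))
      · exact h3 x hx (not_not.1 fun h => hxE (Or.inr h)) (fun h => hxE (Or.inl h))
    · exact ⟨∅, dimH_empty, fun h => absurd h hi⟩
  choose E hE0 hE using H
  refine ⟨⋃ i, E i, by rw [dimH_iUnion]; simp [hE0], fun s n a b hab => ?_⟩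
  obtain ⟨h1, h2⟩ := hE ⟨s, n, fun j => ⟨a j, hab.alg_a j⟩, fun j => ⟨b j, hab.alg_b j⟩⟩ hab
  refine ⟨fun x hx F _ _ ι d A ω hω => ?_, fun x hx hxE d A => ?_⟩
  · obtain ⟨B, T₁, h4⟩ := h1 x (fun h => hx (Set.mem_iUnion.2 ⟨_, h⟩)) F ι d A ω hω
    refine ⟨B, max T₁ 1, fun T hT t ht htx => ?_⟩
    have h5 : ¬ Dep (value L a b (ι t)) ξ F ι d A B T := h4 T ((le_max_left _ _).trans hT) t ht htx
    have hT0 : 0 < T := lt_of_lt_of_le one_pos ((le_max_right _ _).trans hT)
    exact ⟨h5, fun P hP hPd hPA => Pool.Agent.X39.Near.int_of_not_dep h5 hT0 P hP hPd fun e => by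
      exact_mod_cast hPA e⟩
  · obtain ⟨B, n₀, h4⟩ := h2 x hx (fun h => hxE (Set.mem_iUnion.2 ⟨_, h⟩)) d A
    refine ⟨B, n₀, fun k hk => ?_⟩
    have h5 : ¬ Dep (value L a b ((x.convergent k : ℚ) : ℂ)) ξ ℚ (algebraMap ℚ ℂ) d A B (x.convergent k).den :=
      h4 k hk
    have hT0 : (0 : ℝ) < (x.convergent k).den := by exact_mod_cast (x.convergent k).pos
    exact ⟨h5, fun P hP hPd hPA => Pool.Agent.X39.Near.int_of_not_dep h5 hT0 P hP hPd fun e => by
      exact_mod_cast hPA e⟩

end Pool.Agent.Results.MP_06aafe_nt.ApproximationsOfAllNumbers
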